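import Pool.Agent.Run7.h259.LHY.HC7
import Pool.Agent.Run7.h259.LHY.HC8

/-!
# The dilute limit of the condensate fraction for all on-site repulsions, hard core included

`N` bosons on a finite set `V` of `n` sites, with the Hamiltonian
`∑ T_xy a_x^* a_y + (U/2) ∑ n_x (n_x - 1)`, `0 < U ≤ ∞`; `U = ∞` are hard-core bosons (at most one
particle at each site). The real symmetric matrix `T` kills the constants and is between `g > 0`
and `t₀` on the functions of mean zero. Its Green matrix `R` has a constant diagonal `r` and the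
row sums of `|R|` are at most `B`. The effective coupling (scattering length) is
`u = U / (1 + U r / 2)`, and `u = 2 / r` for the hard core.

First part: for given `g`, `t₀`, `B` and `η` there is a density `ρ₀` such that for `N ≤ ρ₀ n` and
EVERY `0 < U ≤ ∞` the number of particles outside the condensate is
`(u² N (N - 1) / (4 n²)) ∑_{x, y} R(x, y)²` up to the relative error `25 η`, in the ground state and
in all states with almost minimal energy. The density `ρ₀` depends neither on the number of sites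
nor on `U`.

Second part: the hypotheses hold, with constants which do not depend on the number of sites, for
every translation invariant nonnegative hopping on a finite abelian group (such as the nearest
neighbour hopping on the torus `(ℤ / L)^d`) with the gap `Δ (1 - P₀)` added.
-/

set_option autoImplicit false

namespace Pool.Agent.Results.MP_4952d6_mp.AllRepulsions

open Run7.h259.LHY

theorem result :
    (∀ g t₀ B η : ℝ, 0 < g → g ≤ t₀ → 0 < B → 0 < η → η ≤ 1 / 8 → ∃ ρ₀ : ℝ, 0 < ρ₀ ∧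
      ∀ (V : Type) [Fintype V] [DecidableEq V] [Nonempty V] (T R : V → V → ℝ),
      IsHopping g T → IsGreen T R →
      (∀ f : V → ℝ, ∑ x, ∑ y, T x y * (f x * f y) ≤ t₀ * ∑ x, f x ^ 2) →
      (∀ x y, R x x = R y y) → (∀ x, ∑ y, |R x y| ≤ B) →
      ∀ (N : ℕ) (δ : ℝ), 1 ≤ N → (N : ℝ) ≤ ρ₀ * (Fintype.card V : ℝ) → 0 ≤ δ →
      (∀ (U : ℝ) (ψ : (V → ℕ) → ℂ), 0 < U → IsState N ψ →
        (∀ χ : (V → ℕ) → ℂ, IsState N χ →
          energy T U N ψ ≤ energy T U N χ + δ * (Fintype.card V : ℝ)) →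
        |((N : ℝ) - condensate N ψ) - predicted U R N| ≤
          25 * η * predicted U R N + 2 * δ / (η * g) * (Fintype.card V : ℝ) ∧
        |energy T U N ψ - coupling U R / (2 * (Fintype.card V : ℝ)) * (N * (N - 1))| ≤
          12 * η ^ 2 * g * predicted U R N + δ * (Fintype.card V : ℝ)) ∧
      (∀ ψ : (V → ℕ) → ℂ, IsState N ψ → IsHardCore ψ →
        (∀ χ : (V → ℕ) → ℂ, IsState N χ → IsHardCore χ →
          energy T 0 N ψ ≤ energy T 0 N χ + δ * (Fintype.card V : ℝ)) →
        |((N : ℝ) - condensate N ψ) - predictedHC R N| ≤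
          25 * η * predictedHC R N + 2 * δ / (η * g) * (Fintype.card V : ℝ) ∧
        |energy T 0 N ψ - 1 / (diagMean R * (Fintype.card V : ℝ)) * (N * (N - 1))| ≤
          12 * η ^ 2 * g * predictedHC R N + δ * (Fintype.card V : ℝ))) ∧
    (∀ (V : Type) [AddCommGroup V] [Fintype V] [DecidableEq V] (c : V → ℝ) (Δ κ : ℝ),
      (∀ z, 0 ≤ c z) → (∀ z, c (-z) = c z) → ∑ z, c z ≤ κ → 0 < Δ →
      IsHopping Δ (gapHopping c Δ) ∧
      (∀ f : V → ℝ, ∑ x, ∑ y, gapHopping c Δ x y * (f x * f y) ≤
        (2 * κ + Δ) * ∑ x, f x ^ 2) ∧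
      ∃ R : V → V → ℝ, IsGreen (gapHopping c Δ) R ∧ (∀ x y, R x x = R y y) ∧
        ∀ x, ∑ y, |R x y| ≤ 2 / Δ) := by
  refine ⟨fun g t₀ B η hg hgt hB hη hη8 => dilute g t₀ B η hg hgt hB hη hη8, ?_⟩
  intro V _ _ _ c Δ κ hc hcs hκ hΔ
  obtain ⟨R, hR⟩ := exists_green hΔ (hopping_T hc hcs hΔ)
  exact ⟨hopping_T hc hcs hΔ, upper_T hc hcs hΔ hκ, R, hR, diag_T hc hcs hΔ hR,
    l1_T hc hcs hΔ hR⟩

end Pool.Agent.Results.MP_4952d6_mp.AllRepulsions
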