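import Pool.Agent.Run7.h259.LHY.Final2

/-!
# The condensate depletion of the dilute lattice Bose gas with a one-particle gap

`N` bosons on a finite set `V` of `n` sites, with the Hamiltonian
`∑ T_xy a_x^* a_y + (U/2) ∑ n_x (n_x - 1)`, `0 < U < ∞`. The real symmetric matrix `T` kills the
constants and is at least `g > 0` on the functions of mean zero. `R` is its Green matrix and
`u = U / (1 + U R̄ / 2)`, `R̄` the mean of `R x x`, is the effective coupling (the scattering length
of the on-site repulsion). The number of particles outside the condensate, in the ground state and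
in every state whose energy is close to the ground state energy, is

  `predicted = (u² N (N - 1) / (4 n²)) ∑_{x, y} R(x, y)²`

up to the relative error `25 η`, as soon as `U (N / n + p + w) ≤ η² g`. Here `p` bounds the
predicted number of excited particles at a site, and `w` bounds the inhomogeneity of the diagonal
of `R` (`w = 0` if all sites are equivalent). There is no other condition, and the constants are
absolute: `n`, `N`, the gap `g` and the strength `U` are arbitrary.
-/

set_option autoImplicit false

namespace Pool.Agent.Results.MP_4952d6_mp.DepletionFormula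

open Run7.h259.LHY

theorem result {V : Type} [Fintype V] [DecidableEq V] [Nonempty V] (g : ℝ) (hg : 0 < g)
    (T R : V → V → ℝ) (hT : IsHopping g T) (hR : IsGreen T R) (U η δ p w : ℝ) (N : ℕ)
    (hU : 0 < U) (hN : 1 ≤ N) (hη : 0 < η) (hη8 : η ≤ 1 / 8) (hδ : 0 ≤ δ) (hw : 0 ≤ w)
    (hp : ∀ x, (coupling U R * N / (Fintype.card V : ℝ)) ^ 2 / 4 * ∑ y, R y x ^ 2 ≤ p)
    (hvar : ∑ x, (R x x - diagMean R) ^ 2 ≤ w * ∑ x, ∑ y, R x y ^ 2)
    (hsmall : U * ((N : ℝ) / (Fintype.card V : ℝ) + p + w) ≤ η ^ 2 * g)
    (ψ : (V → ℕ) → ℂ) (hψ : IsState N ψ)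
    (hmin : ∀ χ : (V → ℕ) → ℂ, IsState N χ →
      energy T U N ψ ≤ energy T U N χ + δ * (Fintype.card V : ℝ)) :
    |((N : ℝ) - condensate N ψ) - predicted U R N| ≤
      25 * η * predicted U R N + 2 * δ / (η * g) * (Fintype.card V : ℝ) ∧
    |energy T U N ψ - coupling U R / (2 * (Fintype.card V : ℝ)) * (N * (N - 1))| ≤
      12 * η ^ 2 * g * predicted U R N + δ * (Fintype.card V : ℝ) :=
  depletion2 g hg T R hT hR U η δ p w N hU hN hη hη8 hδ hw hp hvar hsmall ψ hψ hmin

end Pool.Agent.Results.MP_4952d6_mp.DepletionFormula
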