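import Pool.Agent.Run7.h543.DEP.Fin5
import Pool.Agent.Run7.h299.DEP.Walk
import Pool.Agent.Run7.h593.DEP.GIB
import Pool.Agent.Run7.h957.DEP.PRO
import Pool.Agent.Run7.h957.DEP.TCO
import Pool.Agent.Run7.h803.DEP.TRA
import Pool.Agent.Run7.h270.DEP.UPP
import Pool.Agent.Run7.h56.DEP.RAD
import Pool.Agent.Run7.h973.DEP.GRE

/-!
# The exact first-order law of the condensate depletion for hard-core bosons

`N` hard-core bosons hop on a finite set `V` of `n` sites with symmetric amplitudes
`t x y ≥ 0`, `∑_y t x y ≤ D`.  `lap t` is the Laplacian `L` of `t`, the energy of a wave function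
`ψ` is `energyT t ψ = ∑ L(x, y) ⟨a_x ψ, a_y ψ⟩` (`a_x` the annihilation operators of hard-core
bosons), `HasGapT t g` is the spectral gap `g` of `L` above the constants, `green t` is the inverse
of `L` on the orthogonal complement of the constants, and `condensate ψ` is the number of particles
in the constant function.

The theorem: uniformly in the volume, for `N ≤ ρ₀ n`,

* ground energy `= N (N - 1) / tr G + O(ε N ^ 2 / n)`,
* number of particles outside of the condensate, in all states of energy at most `δ N ^ 2 / n`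
  above the ground energy and in the Gibbs states at the temperatures `T` with
  `T (1 + log (n / N)) ≤ δ N / n`, is `N (N - 1) tr (G ^ 2) / (tr G) ^ 2 + O(ε N ^ 2 / n)`,

if the diagonals of `L, L ^ 2, ..., L ^ K` are constant (for instance when the symmetry group of `t`
is transitive); for `D`-regular graphs which are trees in the balls of radius `R` the two
coefficients are `D (D - 2) / (D - 1)` and `1 + D / ((D - 1) (D - 2))`.

Method: the number of particles outside of the condensate is the derivative of the energy with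
respect to a shift `lam` of the one-particle energies above the constant function.  For `lam` of
both signs, Dyson-type lower bounds for the energy of every wave function, with the kernels `U` with
`(L + lam) U = c - E`, meet the energy of a Jastrow function for `lam = 0`.
-/

set_option autoImplicit false

namespace Pool.Agent.Results.MP_4952d6_mp.ExactDepletion

open Finset Matrix Run7.h259.BEC Run7.h543.DEP

/-- **The exact first-order law of the condensate depletion.** -/
theorem result :
    (∀ D g ε : ℝ, 0 < D → 0 < g → 0 < ε →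
      ∃ (K : ℕ) (ρ₀ δ : ℝ), 0 < ρ₀ ∧ 0 < δ ∧
        ∀ (V : Type) [Fintype V] [DecidableEq V] (t : V → V → ℝ),
          IsHopping t D → HasGapT t g → Loc t K →
          ∀ N : ℕ, 1 ≤ N → (N : ℝ) ≤ ρ₀ * Fintype.card V →
          FirstOrderLaw t N (Fintype.card V / trace (green t))
            (Fintype.card V * trace (green t * green t) / trace (green t) ^ 2) ε δ) ∧
    (∀ (V : Type) [Fintype V] [DecidableEq V] (t : V → V → ℝ),
      IsTransitive t → ∀ K : ℕ, Loc t K) ∧
    (∀ (D : ℕ) (g ε : ℝ), 3 ≤ D → 0 < g → 0 < ε →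
      ∃ (R : ℕ) (ρ₀ δ : ℝ), 0 < ρ₀ ∧ 0 < δ ∧
        ∀ (V : Type) [Fintype V] [DecidableEq V] (Gr : SimpleGraph V) [DecidableRel Gr.Adj],
          IsTreelike Gr D R → HasGapT (adjT Gr) g →
          ∀ N : ℕ, 1 ≤ N → (N : ℝ) ≤ ρ₀ * Fintype.card V →
          FirstOrderLaw (adjT Gr) N (D * (D - 2) / (D - 1))
            (1 + D / ((D - 1) * (D - 2))) ε δ) := by
  have hCON := Run7.h299.DEP.t_CON
  have hGRE := Run7.h973.DEP.t_GRE
  have hTRA := Run7.h803.DEP.t_TRA hCON hGRE
  have hPRO := Run7.h957.DEP.t_PRO hCON hTRA
  have hUPP := Pool.Agent.Run7.h270.DEP.t_UPP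
  have hGIB := Run7.h593.DEP.t_GIB
  have hRAD := Run7.h56.DEP.t_RAD
  have hSPH := Run7.h56.DEP.t_SPH hRAD
  have hTLO := Run7.h56.DEP.t_TLO hRAD
  have hTCO := Run7.h957.DEP.t_TCO hRAD hSPH hGRE
  refine ⟨?_, fun V _ _ t h K => h.loc K, ?_⟩
  · intro D g ε hD hg hε
    obtain ⟨K, ρ₀, δ, hρ₀, hδ, h⟩ := general hPRO hUPP hGRE hGIB D g ε hD hg hε
    refine ⟨K, ρ₀, δ, hρ₀, hδ, fun V _ _ t ht hgap hloc N hN1 hN => ?_⟩
    have hN1' : (1 : ℝ) ≤ N := by exact_mod_cast hN1
    have hn : (Fintype.card V : ℝ) ≠ 0 := by
      intro h0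
      rw [h0, mul_zero] at hN
      linarith
    have h1 := h V t ht hgap hloc N hN1 hN
    have e1 : 1 / aa t = Fintype.card V / trace (green t) := by
      unfold aa; rw [one_div_div]
    have e2 : bb t / aa t ^ 2 =
        Fintype.card V * trace (green t * green t) / trace (green t) ^ 2 := by
      unfold aa bb
      rcases eq_or_ne (trace (green t)) 0 with h0 | h0
      · rw [h0]; simp
      · field_simp
    rw [e1, e2] at h1
    exact h1
  · intro D g ε hD hg hε
    exact treelike hPRO hUPP hGRE hGIB hTLO hTCO D hD g ε hg hε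

end Pool.Agent.Results.MP_4952d6_mp.ExactDepletion
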