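import Pool.Agent.Run7.h543.DEP.G8
import Pool.Agent.Run7.h722.DEQ.KER
import Pool.Agent.Run7.h722.DEQ.CMP
import Pool.Agent.Run7.h222.DEP.EXI
import Pool.Agent.Run7.h348.DEP.UPG
import Pool.Agent.Run7.h973.DEP.GIX
import Pool.Agent.Run7.h973.DEP.TOR

/-!
# The first-order depletion for an arbitrary pair repulsion

`N` bosons, at most one at a site, hop on a finite set `V` of `n` sites with symmetric amplitudes
`t x y ≥ 0`, `∑_y t x y ≤ D`; `lap t` is the Laplacian `L` of `t`, `HasGapT t g` its gap `g` above
the constants.  Two particles at `x`, `y` have the energy `w x y ≥ 0` of any strength, and two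
particles never sit at `x`, `y` with `Hd x y` (`Excl`); each site interacts with at most `k` sites
(`IsRep`), any two sites are exchanged by a symmetry of `t`, `w`, `Hd` (`Swap`).  The energy of a
wave function `ψ` is `energyW t w ψ = ∑ L(x, y) ⟨a_x ψ, a_y ψ⟩ + ∑_S (pair energy of S) |ψ S| ^ 2`,
and `condensate ψ` is the number of particles in the constant function.

The function `φ` of the one-obstacle problem (`IsScat`): `φ = 0` on the sites excluded by `z`, and
`L φ + (w(·, z) / 2) φ = c / n` elsewhere, with the mean value one.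

The theorem: uniformly in the volume and in `w`, `Hd`, for `N ≤ ρ₀ n`,

* ground energy `= c N (N - 1) / n + O(ε N ^ 2 / n)`,
* number of particles outside of the condensate, in all states of energy at most `δ N ^ 2 / n`
  above the ground energy and in the Gibbs states at the temperatures `T` with
  `T (1 + log (n / N)) ≤ δ N / n`, is `(∑ (φ - 1) ^ 2) N (N - 1) / n + O(ε N ^ 2 / n)`.

The second part: on every finite abelian group (tori) the hopping `t₀ (x - y) + g / n` and even
`w₀ (x - y)`, `H₀ (x - y)` satisfy the hypotheses.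

Method: for a wave function `ψ` and a configuration `S` of `N - 1` particles, the function
`x ↦ ψ (S ∪ {x})` is compared with `m (1 - ∑_{z ∈ S} β_z U_z)`, where `U_z` is the one-obstacle
function with a mass `ν` and the weights `β_z ∈ [0, 1]` are smaller for the particles which are
crowded by others; the loss in the energy bounds the square norm of the difference (gap), so that
the number of particles outside of the condensate is found from both sides; the close pairs are
controlled by the condensate itself.
-/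

set_option autoImplicit false

namespace Pool.Agent.Results.MP_4952d6_mp.PairRepulsion

open Finset Matrix Run7.h259.BEC Run7.h543.DEP

/-- **The first-order law for an arbitrary pair repulsion.** -/
theorem result :
    (∀ (D g ε : ℝ) (k : ℕ), 0 < D → 0 < g → 0 < ε →
      ∃ ρ₀ δ : ℝ, 0 < ρ₀ ∧ 0 < δ ∧
        ∀ (V : Type) [Fintype V] [DecidableEq V] (t w : V → V → ℝ) (Hd : V → V → Prop)
          [DecidableRel Hd], IsHopping t D → HasGapT t g → IsRep w Hd k → Swap t w Hd →
          ∀ N : ℕ, 1 ≤ N → (N : ℝ) ≤ ρ₀ * Fintype.card V → ∀ z : V,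
          (∃ (φ : V → ℝ) (c : ℝ), IsScat t w Hd z φ c) ∧
          ∀ (φ : V → ℝ) (c : ℝ), IsScat t w Hd z φ c →
            LawX t w Hd N c (∑ x, (φ x - 1) ^ 2) ε δ) ∧
    (∀ (V : Type) [Fintype V] [DecidableEq V] [AddCommGroup V] (t₀ w₀ : V → ℝ)
      (H₀ : V → Prop) [DecidablePred H₀] (D g : ℝ) (k : ℕ), 0 < D → 0 < g →
      (∀ a, t₀ (-a) = t₀ a) → (∀ a, 0 ≤ t₀ a) → ∑ a, t₀ a ≤ D →
      (∀ a, w₀ (-a) = w₀ a) → (∀ a, 0 ≤ w₀ a) → (∀ a, H₀ a → H₀ (-a)) → H₀ 0 →
      (univ.filter fun a => H₀ a ∨ w₀ a ≠ 0).card ≤ k →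
      IsHopping (fun x y : V => t₀ (x - y) + g / Fintype.card V) (D + g) ∧
      HasGapT (fun x y : V => t₀ (x - y) + g / Fintype.card V) g ∧
      IsRep (fun x y : V => w₀ (x - y)) (fun x y : V => H₀ (x - y)) k ∧
      Swap (fun x y : V => t₀ (x - y) + g / Fintype.card V) (fun x y : V => w₀ (x - y))
        (fun x y : V => H₀ (x - y))) := by
  refine ⟨?_, Run7.h973.DEP.t_TOR⟩
  intro D g ε k hD hg hε
  exact generalX Pool.Agent.Run7.h722.DEQ.t_KER Pool.Agent.Run7.h722.DEQ.t_CMP
    Pool.Agent.Run7.h348.DEP.t_UPG Run7.h973.DEP.t_GIX Run7.h222.DEP.t_EXI D g ε k hD hg hε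

end Pool.Agent.Results.MP_4952d6_mp.PairRepulsion
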